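import Pool.Agent.N236.UR.Stm4

/-!
# UR/EP2 (project UR of helper236): power maps, exact formula and four point inequality for the loss
-/

set_option autoImplicit false

open Polynomial

namespace Pool.Agent.N222.UR

open Pool.Agent.N236.UB Pool.Agent.N236.UR

section

variable {L : Type} [Field L] {v : AbsoluteValue L ℝ}

theorem val_nat (hna : ∀ x y : L, v (x + y) ≤ max (v x) (v y)) (n : ℕ) : v (n : L) ≤ 1 := by
  induction n with
  | zero => simp
  | succ n ih =>
    rw [Nat.cast_succ]
    exact (hna _ _).trans (max_le ih (by simp))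

theorem val_sub_le (hna : ∀ x y : L, v (x + y) ≤ max (v x) (v y)) (x y : L) :
    v (x - y) ≤ max (v x) (v y) := by
  rw [sub_eq_add_neg]
  exact (hna _ _).trans (by rw [v.map_neg])

theorem val_sub_eq (hna : ∀ x y : L, v (x + y) ≤ max (v x) (v y)) {x y : L} (h : v y < v x) :
    v (x - y) = v x := by
  apply le_antisymm
  · exact (val_sub_le hna x y).trans (max_le le_rfl h.le)
  · by_contra hlt
    push Not at hlt
    have h1 : v x ≤ max (v (x - y)) (v y) := by
      have := hna (x - y) y
      rwa [sub_add_cancel] at this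
    exact absurd h1 (not_le.2 (max_lt hlt h))

theorem val_max (hna : ∀ x y : L, v (x + y) ≤ max (v x) (v y)) {x y : L} (h : v x ≠ v y) :
    v (x - y) = max (v x) (v y) := by
  rcases lt_or_gt_of_ne h with h1 | h1
  · rw [← v.map_neg, neg_sub, val_sub_eq hna h1, max_eq_right h1.le]
  · rw [val_sub_eq hna h1, max_eq_left h1.le]

/-- `v u = v w` if `v (u - w) < v w` -/
theorem val_near (hna : ∀ x y : L, v (x + y) ≤ max (v x) (v y)) {u w : L} (h : v (u - w) < v w) :
    v u = v w := by
  by_contra hne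
  rw [val_max hna hne] at h
  exact absurd (le_max_right (v u) (v w)) (not_le.2 h)

theorem max_pow {a b : ℝ} (ha : 0 ≤ a) (hb : 0 ≤ b) (l : ℕ) : max (a ^ l) (b ^ l) = max a b ^ l := by
  rcases le_total a b with h | h
  · rw [max_eq_right h, max_eq_right (pow_le_pow_left₀ ha h l)]
  · rw [max_eq_left h, max_eq_left (pow_le_pow_left₀ hb h l)]

/-- the exact formula -/
theorem core (hna : ∀ x y : L, v (x + y) ≤ max (v x) (v y)) {l : ℕ} (hG : GoodL v l) (A B : L) :
    v (A ^ l - B ^ l) = v (A - B) * (max (v A) (v B) ^ (l - 1) *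
      (open Classical in if v (A - B) < max (v A) (v B) then v (l : L) else 1)) := by
  obtain ⟨hl2, hl0, h3, h4⟩ := hG
  have hl1 : l = (l - 1) + 1 := by omega
  by_cases hAB : v A = v B
  · by_cases hB : B = 0
    · have hA : A = 0 := by
        rw [hB, map_zero] at hAB
        exact v.eq_zero.1 hAB
      rw [hA, hB, sub_self, sub_self, map_zero, zero_mul]
    · have hvB : 0 < v B := v.pos hB
      obtain ⟨z, hz⟩ : ∃ z, z = A / B := ⟨_, rfl⟩
      have hA : A = z * B := by rw [hz, div_mul_cancel₀ _ hB]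
      have hvz : v z = 1 := by
        rw [hz, map_div₀, hAB, div_self hvB.ne']
      have e1 : A - B = (z - 1) * B := by rw [hA]; ring
      have e2 : A ^ l - B ^ l = (z ^ l - 1) * B ^ l := by rw [hA]; ring
      have hz1 : v (z - 1) ≤ 1 := by
        have := val_sub_le hna z 1
        rwa [hvz, map_one, max_self] at this
      rw [e1, e2, map_mul, map_mul, map_pow, hAB, max_self]
      by_cases hlt : v (z - 1) < 1
      · have hlt' : v (z - 1) * v B < v B := by nlinarith
        rw [if_pos hlt']
        by_cases hz0 : z = 1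
        · rw [hz0]; simp
        · have h5 := val_near hna (h4 z hlt hz0)
          rw [h5, map_mul]
          conv_lhs => rw [hl1, pow_succ]
          rw [← hl1]
          ring
      · have hz2 : v (z - 1) = 1 := le_antisymm hz1 (not_lt.1 hlt)
        have hlt' : ¬ v (z - 1) * v B < v B := by rw [hz2, one_mul]; exact lt_irrefl _
        rw [if_neg hlt', h3 z hvz hz2, hz2]
        conv_lhs => rw [hl1, pow_succ]
        ring
  · have h5 : v (A - B) = max (v A) (v B) := val_max hna hAB
    have h6 : v (A ^ l) ≠ v (B ^ l) := by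
      rw [map_pow, map_pow]
      intro he
      exact hAB ((pow_left_inj₀ (v.nonneg A) (v.nonneg B) (by omega)).1 he)
    rw [val_max hna h6, map_pow, map_pow, max_pow (v.nonneg A) (v.nonneg B), h5,
      if_neg (lt_irrefl _), mul_one]
    conv_lhs => rw [hl1, pow_succ]
    ring

/-- related vectors -/
def Rl (v : AbsoluteValue L ℝ) (x y : L × L) : Prop := v (wd x y) < mm v x y

theorem wd_le (hna : ∀ x y : L, v (x + y) ≤ max (v x) (v y)) (x y : L × L) :
    v (wd x y) ≤ mm v x y := val_sub_le hna _ _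

theorem wd_comm (x y : L × L) : v (wd x y) = v (wd y x) := by
  rw [← v.map_neg]
  congr 1
  unfold wd
  ring

theorem mm_comm (x y : L × L) : mm v x y = mm v y x := by
  unfold mm
  rw [max_comm, mul_comm x.2, mul_comm x.1]

theorem Rl_symm {x y : L × L} (h : Rl v x y) : Rl v y x := by
  unfold Rl at h ⊢
  rwa [wd_comm, mm_comm]

/-- the absolute values of related vectors -/
theorem Rl_eq (hna : ∀ x y : L, v (x + y) ≤ max (v x) (v y)) {x y : L × L} (h : Rl v x y) :
    v x.1 * v y.2 = v x.2 * v y.1 := by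
  by_contra hne
  have h1 : v (x.1 * y.2) ≠ v (x.2 * y.1) := by rw [map_mul, map_mul]; exact hne
  have h2 := val_max hna h1
  unfold Rl wd mm at h
  rw [h2] at h
  exact lt_irrefl _ h

theorem Rl_ne (hna : ∀ x y : L, v (x + y) ≤ max (v x) (v y)) {x y : L × L} (h : Rl v x y) :
    x.1 ≠ 0 ∧ x.2 ≠ 0 ∧ y.1 ≠ 0 ∧ y.2 ≠ 0 := by
  have h1 := Rl_eq hna h
  have h2 : 0 < mm v x y := lt_of_le_of_lt (v.nonneg _) h
  have h3 : mm v x y = v x.1 * v y.2 := by
    unfold mm
    rw [map_mul, map_mul, ← h1, max_self]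
  rw [h3] at h2
  have h4 := h2
  rw [h1] at h4
  refine ⟨?_, ?_, ?_, ?_⟩
  · intro h0; rw [h0, map_zero, zero_mul] at h2; exact lt_irrefl _ h2
  · intro h0; rw [h0, map_zero, zero_mul] at h4; exact lt_irrefl _ h4
  · intro h0; rw [h0, map_zero, mul_zero] at h4; exact lt_irrefl _ h4
  · intro h0; rw [h0, map_zero, mul_zero] at h2; exact lt_irrefl _ h2

theorem Rl_iff {x y : L × L} (hx : x.2 ≠ 0) (hy : y.2 ≠ 0)
    (he : v x.1 * v y.2 = v x.2 * v y.1) :
    Rl v x y ↔ v (x.1 / x.2 - y.1 / y.2) < v (x.1 / x.2) := by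
  have h1 : 0 < v x.2 := v.pos hx
  have h2 : 0 < v y.2 := v.pos hy
  have e1 : wd x y = (x.1 / x.2 - y.1 / y.2) * (x.2 * y.2) := by
    unfold wd
    field_simp
  have e2 : mm v x y = v (x.1 / x.2) * (v x.2 * v y.2) := by
    unfold mm
    rw [map_mul, map_mul, ← he, max_self, map_div₀]
    field_simp
  unfold Rl
  rw [e1, e2, map_mul, map_mul]
  exact mul_lt_mul_iff_left₀ (mul_pos h1 h2)

theorem Rl_ratio (hna : ∀ x y : L, v (x + y) ≤ max (v x) (v y)) {x y : L × L} (h : Rl v x y) :
    v (x.1 / x.2) = v (y.1 / y.2) := by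
  obtain ⟨-, hx, -, hy⟩ := Rl_ne hna h
  have h1 : 0 < v x.2 := v.pos hx
  have h2 : 0 < v y.2 := v.pos hy
  rw [map_div₀, map_div₀, div_eq_div_iff h1.ne' h2.ne', Rl_eq hna h, mul_comm]

theorem Rl_trans (hna : ∀ x y : L, v (x + y) ≤ max (v x) (v y)) {x y z : L × L} (h : Rl v x y)
    (h' : Rl v y z) : Rl v x z := by
  obtain ⟨-, hx, -, hy⟩ := Rl_ne hna h
  obtain ⟨-, -, -, hz⟩ := Rl_ne hna h'
  have r1 := Rl_ratio hna h
  have r2 := Rl_ratio hna h'
  have k1 := (Rl_iff hx hy (Rl_eq hna h)).1 h
  have k2 := (Rl_iff hy hz (Rl_eq hna h')).1 h'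
  have he : v x.1 * v z.2 = v x.2 * v z.1 := by
    have r3 := r1.trans r2
    rw [map_div₀, map_div₀, div_eq_div_iff (v.pos hx).ne' (v.pos hz).ne'] at r3
    rw [r3, mul_comm]
  rw [Rl_iff hx hz he]
  have e : x.1 / x.2 - z.1 / z.2 = (x.1 / x.2 - y.1 / y.2) + (y.1 / y.2 - z.1 / z.2) := by ring
  rw [e]
  refine lt_of_le_of_lt (hna _ _) (max_lt k1 ?_)
  rw [r1]
  exact k2

/-- the product of the maxima, `a` and `c` related -/
theorem mm_ineq (hna : ∀ x y : L, v (x + y) ≤ max (v x) (v y)) {a b c d : L × L} (h : Rl v a c) :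
    mm v a c * mm v b d ≤ mm v a b * mm v c d := by
  have h1 := Rl_eq hna h
  unfold mm
  simp only [map_mul]
  rw [← h1, max_self]
  have n : ∀ x : L, 0 ≤ v x := v.nonneg
  rcases le_total (v b.1 * v d.2) (v b.2 * v d.1) with h2 | h2
  · rw [max_eq_right h2]
    calc v a.1 * v c.2 * (v b.2 * v d.1) = (v a.1 * v b.2) * (v c.2 * v d.1) := by ring
      _ ≤ _ := mul_le_mul (le_max_left _ _) (le_max_right _ _) (mul_nonneg (n _) (n _))
          (le_max_of_le_left (mul_nonneg (n _) (n _)))
  · rw [max_eq_left h2, h1]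
    calc v a.2 * v c.1 * (v b.1 * v d.2) = (v a.2 * v b.1) * (v c.1 * v d.2) := by ring
      _ ≤ _ := mul_le_mul (le_max_right _ _) (le_max_left _ _) (mul_nonneg (n _) (n _))
          (le_max_of_le_left (mul_nonneg (n _) (n _)))

theorem real_four {a1 a2 b1 b2 c1 c2 d1 d2 : ℝ} (ha1 : 0 ≤ a1) (ha2 : 0 ≤ a2) (hb1 : 0 ≤ b1)
    (hb2 : 0 ≤ b2) (hc1 : 0 ≤ c1) (hc2 : 0 ≤ c2) (hd1 : 0 ≤ d1) (hd2 : 0 ≤ d2)
    (h : max (a1 * c2) (a2 * c1) * max (b1 * d2) (b2 * d1) <
      max (a1 * b2) (a2 * b1) * max (c1 * d2) (c2 * d1)) :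
    a1 * b2 ≠ a2 * b1 ∧ c1 * d2 ≠ c2 * d1 := by
  have k1 : (a2 * c1) * (b1 * d2) ≤ max (a1 * c2) (a2 * c1) * max (b1 * d2) (b2 * d1) :=
    mul_le_mul (le_max_right _ _) (le_max_left _ _) (mul_nonneg hb1 hd2)
      (le_max_of_le_left (mul_nonneg ha1 hc2))
  have k2 : (a1 * c2) * (b2 * d1) ≤ max (a1 * c2) (a2 * c1) * max (b1 * d2) (b2 * d1) :=
    mul_le_mul (le_max_left _ _) (le_max_right _ _) (mul_nonneg hb2 hd1)
      (le_max_of_le_left (mul_nonneg ha1 hc2))
  constructor
  · intro he
    rcases le_total (c1 * d2) (c2 * d1) with h1 | h1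
    · rw [max_eq_right h1, he, max_self, ← he] at h
      nlinarith [h, k2]
    · rw [max_eq_left h1, he, max_self] at h
      nlinarith [h, k1]
  · intro he
    rcases le_total (a1 * b2) (a2 * b1) with h1 | h1
    · rw [max_eq_right h1, he, max_self, ← he] at h
      nlinarith [h, k1]
    · rw [max_eq_left h1, he, max_self] at h
      nlinarith [h, k2]

theorem lam_pos {l : ℕ} {x y : L × L} (h : Rl v x y) : lam v l x y = v (l : L) := by
  unfold lam
  exact if_pos h

theorem lam_neg {l : ℕ} {x y : L × L} (h : ¬ Rl v x y) : lam v l x y = 1 := by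
  unfold lam
  exact if_neg h

end

theorem t_ep2 : S_EP2 := by
  intro L _ v l hna hG
  refine ⟨fun x y => ?_, fun a b c d hab hac had hbc hbd hcd h => ?_⟩
  · have h1 : wd (pw l x) (pw l y) = (x.1 * y.2) ^ l - (x.2 * y.1) ^ l := by
      unfold wd pw
      rw [mul_pow, mul_pow]
    rw [h1, core hna hG]
    rfl
  · have hl0 : 0 < v (l : L) := v.pos hG.2.1
    have hl1 : v (l : L) ≤ 1 := val_nat hna l
    have hle := wd_le (v := v) hna
    have n : ∀ x : L, 0 ≤ v x := v.nonneg
    have hnR : ∀ x y : L × L, ¬ Rl v x y → v (wd x y) = mm v x y := fun x y hxy =>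
      le_antisymm (hle x y) (not_lt.1 hxy)
    refine ⟨?_, ?_⟩
    · by_contra hlt
      push Not at hlt
      have h1 := real_four (v.nonneg a.1) (v.nonneg a.2) (v.nonneg b.1) (v.nonneg b.2)
        (v.nonneg c.1) (v.nonneg c.2) (v.nonneg d.1) (v.nonneg d.2)
        (by
          have h2 := hlt
          unfold mm at h2
          simpa only [map_mul] using h2)
      have hab : v (wd a b) = mm v a b := val_max hna (by rw [map_mul, map_mul]; exact h1.1)
      have hcd : v (wd c d) = mm v c d := val_max hna (by rw [map_mul, map_mul]; exact h1.2)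
      have h3 : v (wd a c) * v (wd b d) ≤ mm v a c * mm v b d :=
        mul_le_mul (hle _ _) (hle _ _) (v.nonneg _) ((v.nonneg _).trans (hle _ _))
      rw [hab, hcd] at h
      exact absurd (h.trans h3) (not_le.2 hlt)
    · by_cases r1 : Rl v a b
      · by_cases r2 : Rl v c d
        · -- both
          rw [lam_pos r1, lam_pos r2]
          have e : ∀ x y : L × L, v (l : L) ≤ lam v l x y := by
            intro x y
            by_cases hr : Rl v x y
            · rw [lam_pos hr]
            · rw [lam_neg hr]; exact hl1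
          exact mul_le_mul (e a c) (e b d) hl0.le (hl0.le.trans (e a c))
        · rw [lam_pos r1, lam_neg r2, mul_one]
          by_cases r3 : Rl v a c
          · by_cases r4 : Rl v b d
            · exact absurd (Rl_trans hna (Rl_trans hna (Rl_symm r3) r1) r4) r2
            · rw [lam_pos r3, lam_neg r4, mul_one]
          · rw [lam_neg r3, one_mul]
            by_cases r4 : Rl v b d
            · rw [lam_pos r4]
            · rw [lam_neg r4]; exact hl1
      · by_cases r2 : Rl v c d
        · rw [lam_neg r1, lam_pos r2, one_mul]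
          by_cases r3 : Rl v a c
          · by_cases r4 : Rl v b d
            · exact absurd (Rl_trans hna (Rl_trans hna r3 r2) (Rl_symm r4)) r1
            · rw [lam_pos r3, lam_neg r4, mul_one]
          · rw [lam_neg r3, one_mul]
            by_cases r4 : Rl v b d
            · rw [lam_pos r4]
            · rw [lam_neg r4]; exact hl1
        · have e1 := hnR a b r1
          have e2 := hnR c d r2
          have pac : 0 < v (wd a c) := v.pos hac
          have pbd : 0 < v (wd b d) := v.pos hbd
          have r3 : ¬ Rl v a c := by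
            intro r3
            have h1 := mm_ineq hna (b := b) (d := d) r3
            rw [← e1, ← e2] at h1
            have h2 : v (wd a c) * v (wd b d) < mm v a c * mm v b d :=
              mul_lt_mul r3 (hle b d) pbd (pac.le.trans (hle a c))
            linarith
          have r4 : ¬ Rl v b d := by
            intro r4
            have h1 := mm_ineq hna (b := a) (d := c) r4
            have h3 : mm v b a * mm v d c = v (wd a b) * v (wd c d) := by
              rw [e1, e2, mm_comm b a, mm_comm d c]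
            rw [h3] at h1
            have h2 : v (wd b d) * v (wd a c) < mm v b d * mm v a c :=
              mul_lt_mul r4 (hle a c) pac (pbd.le.trans (hle b d))
            linarith
          rw [lam_neg r1, lam_neg r2, lam_neg r3, lam_neg r4]

end Pool.Agent.N222.UR
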